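import Pool.Agent.Lib.MP_0c5642_al.W.K4

/-!
# Two-generator one-relator groups outside the irreducible ascending case

Wilton's question has a positive answer for every two-generator one-relator group `G`, neither free
nor isomorphic to a group `BS(1,m)`, except possibly if a subgroup of finite index of `G` is an
ascending HNN extension of a free group `F` of finite rank `n ≥ 2` by an injective endomorphism `φ`
such that no nontrivial subgroup of `F` generated by fewer than `n` elements is mapped into a
conjugate of itself by a power of `φ`. (So `φ` preserves no proper free factor and no conjugacy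
class of a cyclic subgroup.) For the base of the HNN extension in the kernel of a given epimorphism
`χ : G → ℤ` (an epimorphism onto `ℤ` always exists, see `WQ.exists_epi`).

Outline of the proof. Suppose that all finitely generated subgroups of infinite index are free. Then
`ℚ[G]` has no zero divisors. After an automorphism of the free group of rank two `χ a = 0`,
`χ t = 1` and `r` is a word in the conjugates `a_i = t^i a t^-i`, `0 ≤ i ≤ N`. The groups
`V_k = ⟨a_0, …, a_(N+k-1)⟩` are free. A loop argument in the Cayley graph (`B1a`) shows that `V_l`
has no free splitting relative to `V_k`, `k ≤ l`, in the form: every almost invariant subset of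
`V_l` which splits no coset of `V_k` is trivial. By Britton's lemma (`bset_pres`, `pingpong_A`,
`leaf`) there are, on one of the two sides, for all `l` almost invariant subsets of `V_l` which split
only one coset of `V_0`. If the union `M` of the `V_l` is not finitely generated, a theorem of
Dunwoody on cuts of graphs (`dunwoody`) and a chain condition for algebras of almost invariant sets
(`DCC`) give a nontrivial almost invariant subset of `M` nested with its translates, hence a free
splitting of `M` (`S1`), and finally a decomposition of `M` into finitely many freely indecomposable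
factors (`Chain.exists_max`). Conjugation by `t` permutes the noncyclic factors up to conjugation;
a factor `X` which is mapped into itself by `τ = g t^n` gives a finitely generated subgroup
`⟨Y, τ⟩`, `Y ≤ X`, of infinite index (`index_eq_zero`) which is not free (`not_free`). So `M` is
finitely generated, and `G` is an ascending HNN extension of `M` (`theoremW`). Finally choose an
ascending HNN extension with free base of smallest rank among all finite index subgroups
(`K4_core`); the rank is at least two since `G` is neither free nor a group `BS(1,m)`.
-/

namespace Pool.Agent.Results.MP_0c5642_al.ExceptIrreducible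

/-- Let `G = ⟨a, b | r⟩` be not free and `χ : G → ℤ` an epimorphism.

(1) Suppose that `G` is not isomorphic to `BS(1,m)`, `m ∈ ℤ`, and that no subgroup `L` of finite
index in `G` is an ascending HNN extension `⟨F, t | t x t⁻¹ = φ x⟩` (Mathlib's `HNNExtension` with
associated subgroups `F` and `φ F`) of a free group `F` of finite rank `n ≥ 2`, `φ : F → F`
injective, with `χ F = 0` and such that no nontrivial subgroup of `F` generated by fewer than `n`
elements is mapped into a conjugate of itself by a power of `φ`. Then `G` has a finitely generated
subgroup of infinite index which is not free.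

(2) Suppose that `G` is not an ascending HNN extension of a finitely generated free group along `χ`
or `-χ`: there are no finitely generated free subgroup `P ≤ ker χ` and `s` with `χ s = ± 1`,
`s P s⁻¹ ≤ P` and `⟨P, s⟩ = G`. Then again `G` has a finitely generated subgroup of infinite index
which is not free. -/
theorem result (r : FreeGroup (Fin 2))
    (hfree : ¬ IsFreeGroup
      (FreeGroup (Fin 2) ⧸ Subgroup.normalClosure ({r} : Set (FreeGroup (Fin 2)))))
    (χ : (FreeGroup (Fin 2) ⧸ Subgroup.normalClosure ({r} : Set (FreeGroup (Fin 2)))) →*
      Multiplicative ℤ)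
    (hχ : Function.Surjective χ) :
    ((∀ m : ℤ, ¬ Nonempty
      ((FreeGroup (Fin 2) ⧸ Subgroup.normalClosure ({r} : Set (FreeGroup (Fin 2)))) ≃*
        (FreeGroup (Fin 2) ⧸ Subgroup.normalClosure
          ({FreeGroup.of (1 : Fin 2) * FreeGroup.of (0 : Fin 2) * (FreeGroup.of (1 : Fin 2))⁻¹ *
              (FreeGroup.of (0 : Fin 2) ^ m)⁻¹} : Set (FreeGroup (Fin 2)))))) →
      (¬ ∃ (L : Subgroup
          (FreeGroup (Fin 2) ⧸ Subgroup.normalClosure ({r} : Set (FreeGroup (Fin 2)))))
        (n : ℕ) (φ : FreeGroup (Fin n) →* FreeGroup (Fin n)) (hφ : Function.Injective φ)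
        (e : L ≃* HNNExtension (FreeGroup (Fin n)) ⊤ φ.range
          (Subgroup.topEquiv.trans (MonoidHom.ofInjective hφ))),
      L.index ≠ 0 ∧ 2 ≤ n ∧ (∀ x, χ (e.symm (HNNExtension.of x) : L) = 1) ∧
      ∀ (S : Finset (FreeGroup (Fin n))) (k : ℕ) (x : FreeGroup (Fin n)), S.card < n →
        Subgroup.closure (S : Set (FreeGroup (Fin n))) ≠ ⊥ → 0 < k →
        ∃ y ∈ Subgroup.closure (S : Set (FreeGroup (Fin n))),
          x * φ^[k] y * x⁻¹ ∉ Subgroup.closure (S : Set (FreeGroup (Fin n)))) →
      ∃ H : Subgroup
          (FreeGroup (Fin 2) ⧸ Subgroup.normalClosure ({r} : Set (FreeGroup (Fin 2)))),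
        H.FG ∧ ¬ IsFreeGroup H ∧ H.index = 0) ∧
    ((¬ ∃ (P : Subgroup
          (FreeGroup (Fin 2) ⧸ Subgroup.normalClosure ({r} : Set (FreeGroup (Fin 2)))))
        (s : FreeGroup (Fin 2) ⧸ Subgroup.normalClosure ({r} : Set (FreeGroup (Fin 2)))),
        P.FG ∧ IsFreeGroup P ∧ P ≤ χ.ker ∧
        (χ s = Multiplicative.ofAdd 1 ∨ χ s = Multiplicative.ofAdd (-1)) ∧
        P.map (MulAut.conj s).toMonoidHom ≤ P ∧ P ⊔ Subgroup.zpowers s = ⊤) →
      ∃ H : Subgroup
          (FreeGroup (Fin 2) ⧸ Subgroup.normalClosure ({r} : Set (FreeGroup (Fin 2)))),
        H.FG ∧ ¬ IsFreeGroup H ∧ H.index = 0) :=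
  ⟨fun hbs hrem => WQ.theoremW2 r hfree hbs χ hχ hrem, fun hasc => WQ.theoremW r hfree χ hχ hasc⟩

end Pool.Agent.Results.MP_0c5642_al.ExceptIrreducible
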