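import Pool.Agent.Lib.MP_0c5642_al.Main

/-!
# Large two-generator one-relator groups

A two-generator one-relator group `G` which is not free and which is large (some subgroup of finite
index maps onto the free group of rank two) has a finitely generated non-free subgroup of infinite
index.

Outline of the proof. Suppose that every finitely generated subgroup of infinite index is free.
Then every nontrivial finitely generated subgroup maps onto `ℤ`, so `G` has unique products and
the group algebra `ℚ[G]` has no zero divisors (`uniqueProds_of_indicable`). Fox calculus gives the
exactness of the relation sequence of the presentation at its middle term (`IsFox.exact`), and a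
shortest loop in the Cayley graph shows that the Fox derivatives of `r` are not both zero
(`IsFox.exists_ne_zero`). Let `N` be the kernel of `G' → F₂ → ℤ`. A dimension count over the field
`ℚ(t)` produces `z` in `ℚ[G]` with `D z ∈ ℚ[G] I_N` and `z ∉ ℚ[G] I_N`, where `D` is the vector of
Fox derivatives (`exists_z`). The first relation already holds for a finitely generated subgroup
`N₀` of `N` in place of `N`; as `N₀` is free, `z ∈ ℚ[G] I_{N₀}` (`tor_vanish`), a contradiction.
-/

namespace Pool.Agent.Results.MP_0c5642_al.LargeGroups

/-- A large two-generator one-relator group which is not free has a finitely generated subgroup of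
infinite index which is not free. -/
theorem result (r : FreeGroup (Fin 2))
    (hfree : ¬ IsFreeGroup
      (FreeGroup (Fin 2) ⧸ Subgroup.normalClosure ({r} : Set (FreeGroup (Fin 2)))))
    (hlarge : ∃ G' : Subgroup
        (FreeGroup (Fin 2) ⧸ Subgroup.normalClosure ({r} : Set (FreeGroup (Fin 2)))),
      G'.index ≠ 0 ∧ ∃ f : G' →* FreeGroup (Fin 2), Function.Surjective f) :
    ∃ H : Subgroup
        (FreeGroup (Fin 2) ⧸ Subgroup.normalClosure ({r} : Set (FreeGroup (Fin 2)))),
      H.FG ∧ ¬ IsFreeGroup H ∧ H.index = 0 :=
  MP0c5642.main r hfree hlarge

end Pool.Agent.Results.MP_0c5642_al.LargeGroups
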